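import Pool.Agent.Helper8.ND.Quad
import Pool.Agent.Helper28.ND.Spec4

/-!
# ND2, part BASE
-/

set_option autoImplicit false

namespace Pool.Agent.Helper8.ND

open MeasureTheory Set Filter Topology
open Pool.Agent.Helper28.ND Pool.Agent.Helper46.ND

lemma sd_small {y : ℝ} (h0 : 0 < y) (h1 : y < 1 / 4) : sd y = y := by
  unfold sd
  have : round (2 * y) = 0 := by
    rw [round_eq_zero_iff]
    constructor <;> linarith
  rw [this]
  simp

lemma gi_Q4 {r : ℝ} {x : V} (hx : x ∈ Q4) :
    gi r x = if r ≤ x 0 ∧ x 0 ≤ 2 * r then 1 else 0 := by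
  obtain ⟨h1, h2, -, -⟩ := hx
  have hs : 0 < Real.sin (2 * Real.pi * x 0) := by
    apply Real.sin_pos_of_pos_of_lt_pi
    · have := Real.pi_pos
      positivity
    · nlinarith [Real.pi_pos]
  unfold gi
  rw [sd_small h1 h2, abs_of_pos h1, if_pos hs]

lemma finQ4 : IsFiniteMeasure ((volume : Measure V).restrict Q4) :=
  ⟨by rw [Measure.restrict_apply_univ]; exact vol_Q4⟩

lemma inner_low {F G : V → ℝ} {r c : ℝ} (hr : 0 < r) (hr2 : 2 * r ≤ 1 / 4) (hc : 0 ≤ c)
    (hI : IntegrableOn (fun x => F x * G x) Q4)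
    (hF : ∀ x ∈ Q4, F x = if r ≤ x 0 ∧ x 0 ≤ 2 * r then 1 else 0)
    (hG : ∀ x ∈ Q4, 0 ≤ G x) (hG2 : ∀ x ∈ Q4, r ≤ x 0 → x 0 ≤ 2 * r → c ≤ G x) :
    c * r ≤ ∫ x in Q4, F x * G x := by
  have hs : St r (2 * r) ⊆ Q4 := by
    intro x hx
    obtain ⟨⟨a, b⟩, c, d⟩ := hx
    exact ⟨by linarith, by linarith, c, d⟩
  have hfin : volume (St r (2 * r)) ≠ ⊤ := by
    rw [vol_St (by linarith)]
    exact ENNReal.ofReal_ne_top
  calc c * r = ∫ x in St r (2 * r), c := by
        rw [setIntegral_const, volr_St (by linarith)]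
        simp only [smul_eq_mul]
        ring
    _ ≤ ∫ x in St r (2 * r), F x * G x := by
        refine setIntegral_mono_on (integrableOn_const hfin) (hI.mono_set hs) (meas_St _ _) ?_
        intro x hx
        have hq := hs hx
        obtain ⟨⟨a, b⟩, -⟩ := hx
        rw [hF x hq, if_pos ⟨a.le, b.le⟩, one_mul]
        exact hG2 x hq a.le b.le
    _ ≤ ∫ x in Q4, F x * G x := by
        refine setIntegral_mono_set hI ?_ (Eventually.of_forall hs)
        rw [EventuallyLE, ae_restrict_iff' meas_Q4]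
        refine Eventually.of_forall fun x hx => ?_
        show (0 : ℝ) ≤ F x * G x
        rw [hF x hx]
        split_ifs
        · rw [one_mul]; exact hG x hx
        · rw [zero_mul]

lemma inner_up {F G : V → ℝ} {r : ℝ} (hr : 0 < r)
    (hI : IntegrableOn (fun x => F x * G x) Q4)
    (hF : ∀ x ∈ Q4, F x = if r ≤ x 0 ∧ x 0 ≤ 2 * r then 1 else 0)
    (hG : ∀ x ∈ Q4, G x ≤ 1) :
    ∫ x in Q4, F x * G x ≤ 3 * r := by
  have := finQ4
  have hfin : volume (St 0 (3 * r)) ≠ ⊤ := by
    rw [vol_St (by linarith)]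
    exact ENNReal.ofReal_ne_top
  calc ∫ x in Q4, F x * G x
      ≤ ∫ x in Q4, (St 0 (3 * r)).indicator (fun _ => (1 : ℝ)) x := by
        refine setIntegral_mono_on hI ?_ meas_Q4 ?_
        · exact (integrable_const (1 : ℝ)).indicator (meas_St _ _)
        · intro x hx
          obtain ⟨h1, h2, h3, h4⟩ := hx
          rw [hF x ⟨h1, h2, h3, h4⟩]
          split_ifs with h
          · rw [Set.indicator_of_mem (show x ∈ St 0 (3 * r) from
              ⟨⟨h1, by linarith [h.2]⟩, h3, h4⟩), one_mul]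
            exact hG x ⟨h1, h2, h3, h4⟩
          · rw [zero_mul]
            exact Set.indicator_nonneg (fun _ _ => zero_le_one) _
    _ = ((volume : Measure V).restrict Q4).real (St 0 (3 * r)) := by
        rw [integral_indicator_const (1 : ℝ) (meas_St _ _)]
        simp
    _ ≤ (volume : Measure V).real (St 0 (3 * r)) := by
        refine ENNReal.toReal_mono hfin ?_
        exact Measure.restrict_apply_le _ _
    _ = 3 * r := by rw [volr_St (by linarith)]; ring

lemma Gp_meas (hGP : S_GP) (ρ : ℝ) : Measurable (U fun (_ : ℝ) (x : V) => Gp (x 0 / ρ)) :=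
  hGP.1.continuous.measurable.comp (by fun_prop)

/-- the concave static supersolution -/
lemma super (hSUB : S_SUB) (hGP : S_GP) {T : ℝ} {b : ℝ → V → V} {f u : ℝ → V → ℝ}
    {v : ℝ → V → V} (hS : Sit T b f u v) (hb : ∀ t x i, b t x i = 0) {t ρ : ℝ} (ht : 0 ≤ t)
    (htT : t ≤ T) (hρ : 0 < ρ) (hρ8 : ρ ≤ 1 / 8) :
    ∫ x in Q4, u t x * Gp (x 0 / ρ) ≤ (∫ x in Q4, u 0 x * Gp (x 0 / ρ))
      + ∫ s in Ioc 0 t, ∫ x in Q4, f s x * Gp (x 0 / ρ) := by
  obtain ⟨hG2, -, -, ⟨hG0, hG1, hG01, -, -, -, hGd⟩, -, -⟩ := hGP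
  set g : ℝ → V → ℝ := fun _ x => Gp (x 0 / ρ) with hg
  set φ : ℝ → ℝ := fun y => Gp ((y - 0) / ρ) with hφ
  have hφ2 : ContDiff ℝ 2 φ := hG2.comp ((contDiff_id.sub contDiff_const).div_const ρ)
  have hφe : ∀ y, φ y = Gp (y / ρ) := fun y => by simp [hφ]
  have hge : ∀ r, g r = fun x => φ (x 0) := fun r => funext fun x => by rw [hφe]
  have hT4 : T4L 0 t g := by
    refine ⟨⟨1, one_pos, ?_⟩, ?_, ?_, ?_⟩
    · apply ContDiff.contDiffOn
      have h2 : ContDiff ℝ 2 (fun z : ℝ × V => φ (z.2 0)) :=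
        hφ2.comp ((contDiff_coord 0).comp contDiff_snd)
      have h4 : U g = fun z : ℝ × V => φ (z.2 0) := by
        funext z
        simp only [U, hg, hφe]
      rw [h4]
      exact h2
    · intro r x
      simp [hg]
    · intro r x hx
      simp [hg, hx, hG0]
    · intro r x hx
      simp only [hg]
      have h1 : Gp (x 0 / ρ) = 1 := hG1 _ (by rw [le_div_iff₀ hρ]; linarith)
      have h2 : Gp ((![1 / 8, x 1] : V) 0 / ρ) = 1 :=
        hG1 _ (by rw [le_div_iff₀ hρ]; simpa using hρ8)
      rw [h1, h2]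
  have hmain := (hSUB T b f u v hS 0 t g le_rfl ht htT hT4).2 (by
    intro r x h1 h2 hx
    have hx0 := (Q4_pos hx).1
    have hb0 : ∑ i, b r x i * pd i (g r) x = 0 :=
      Finset.sum_eq_zero fun i _ => by rw [hb r x i, zero_mul]
    have hdt : dt g r x = 0 := by
      unfold dt
      have h6 : (fun s => g s x) = fun _ => Gp (x 0 / ρ) := rfl
      rw [h6, deriv_const]
    have hlap : lap (g r) x = deriv (deriv Gp) (x 0 / ρ) / ρ ^ 2 := by
      rw [hge r, lap_coord_comp 0 hφ2]
      rw [hφ, deriv2_resc hG2]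
      simp
    rw [hdt, hb0, hlap]
    have h0 : 0 ≤ x 0 / ρ := div_nonneg hx0 hρ.le
    obtain ⟨k1, -, k3⟩ := hGd (x 0 / ρ) h0
    have k4 : 0 ≤ x 0 / ρ / 2 * deriv Gp (x 0 / ρ) := mul_nonneg (by positivity) k1
    have k5 : deriv (deriv Gp) (x 0 / ρ) ≤ 0 := by linarith
    have k6 := div_nonpos_of_nonpos_of_nonneg k5 (sq_nonneg ρ)
    linarith)
  exact hmain

theorem BASE (hINJ : S_INJ) (hRE2 : S_RE2) (hFSUP : S_FSUP) (hSUB : S_SUB) (hNUM : S_NUM)
    (hPERX : S_PERX) (hBLK : S_BLK) (hFREG : S_FREG) (hGP : S_GP) : S_BASE := by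
  refine ⟨6400, by norm_num, ?_⟩
  intro T n0 N M hP k u v hFS
  obtain ⟨hr, -, hr160, hL, hLT, -, hK, hKr, -, -, hR16, hR20, hR8⟩ := hNUM T n0 N M hP k
  have hPT := hP.hT
  obtain ⟨hS, -⟩ := hPERX T n0 N M hP 0 k u v hFS
  obtain ⟨hFD, hSym, hf1, hfp, -, -, -⟩ := hBLK T n0 N M hP 0 k
  obtain ⟨hBu, hu0, -, -⟩ := hFREG 2 T _ _ u v hPT hFS
  have hsup := hFSUP 2 T _ _ u v hPT hFS 1 0 (KC n0 N M k) le_rfl hK.le zero_le_one
    (fun t x => hf1 t x) (by
      rintro t (h | h) x
      · show (if 0 < t ∧ t < KC n0 N M k then gi (rr n0 N k) else fun _ => 0) x = 0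
        rw [if_neg (fun h' => absurd h'.1 (not_lt.2 h))]
      · show (if 0 < t ∧ t < KC n0 N M k then gi (rr n0 N k) else fun _ => 0) x = 0
        rw [if_neg (fun h' => absurd h'.2 (not_lt.2 h))])
  set r := rr n0 N k with hrd
  set K := KC n0 N M k with hKd
  set L := LL n0 N k with hLd
  set R := RR (L - K) with hRd
  have hsup' : ∀ t x, t ≤ T → |u t x| ≤ K := fun t x h => by
    have := hsup t x h
    linarith
  have hr2 : 0 < r ^ 2 := by positivity
  have hLr : L = 16 * r ^ 2 := rfl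
  have hKL : K < L := by rw [hLr]; linarith
  have hLT' : L ≤ T := by linarith
  have hRpos : 0 < R := by linarith
  -- the source
  have hfin : ∀ t, 0 < t → t < K → ∀ x ∈ Q4,
      ft n0 N M 0 k t x = if r ≤ x 0 ∧ x 0 ≤ 2 * r then 1 else 0 := by
    intro t h1 h2 x hx
    show (if 0 < t ∧ t < K then gi r else fun _ => 0) x = _
    rw [if_pos ⟨h1, h2⟩, gi_Q4 hx]
  have hfout : ∀ t, K ≤ t → ∀ x, ft n0 N M 0 k t x = 0 := by
    intro t h1 x
    show (if 0 < t ∧ t < K then gi r else fun _ => 0) x = 0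
    rw [if_neg (fun h' => absurd h'.2 (not_lt.2 h1))]
  have hGP' := hGP
  obtain ⟨hG2, -, -, ⟨hG0, hG1, hG01, hGy, -, -, hGd⟩, -, -⟩ := hGP'
  have hGQ : ∀ ρ, 0 < ρ → ∀ x ∈ Q4, 0 ≤ Gp (x 0 / ρ) ∧ Gp (x 0 / ρ) ≤ 1 := by
    intro ρ hρ x hx
    have := hG01 (x 0 / ρ) (div_nonneg (Q4_pos hx).1 hρ.le)
    exact ⟨this.1, this.2.1⟩
  have hint : ∀ ρ, 0 < ρ → ∀ t, 
      (∀ s, 0 < s → s ≤ t → IntegrableOn (fun x => ft n0 N M 0 k s x * Gp (x 0 / ρ)) Q4) ∧
      IntegrableOn (fun s => ∫ x in Q4, ft n0 N M 0 k s x * Gp (x 0 / ρ)) (Ioc 0 t) := by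
    intro ρ hρ t
    exact int_time (g := fun (_ : ℝ) (x : V) => Gp (x 0 / ρ)) hFD.mf (B := 1) hf1
      (Gp_meas hGP ρ) (C := 1) (fun _ x _ _ hx => by
        obtain ⟨h3, h4⟩ := hGQ ρ hρ x hx
        rw [abs_of_nonneg h3]
        exact h4)
  -- lower bound
  have low1 : K * (r / 20) ≤ ∫ s in Ioc 0 K, ∫ x in Q4, ft n0 N M 0 k s x * Gp (x 0 / R) := by
    rw [integral_Ioc_eq_integral_Ioo]
    have e1 : K * (r / 20) = ∫ s in Ioo 0 K, (r / 20) := by
      rw [setIntegral_const]
      simp [hK.le]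
    rw [e1]
    refine setIntegral_mono_on (integrableOn_const (by simp))
      ((hint R hRpos K).2.mono_set Ioo_subset_Ioc_self) measurableSet_Ioo ?_
    intro s hs
    have := inner_low (F := ft n0 N M 0 k s) (G := fun x => Gp (x 0 / R)) (r := r) (c := 1 / 20)
      hr (by linarith) (by norm_num) ((hint R hRpos K).1 s hs.1 hs.2.le)
      (hfin s hs.1 hs.2) (fun x hx => (hGQ R hRpos x hx).1) (by
        intro x hx h1 h2
        have k0 : 0 ≤ x 0 / R := div_nonneg (Q4_pos hx).1 hRpos.le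
        have k1 : x 0 / R ≤ 1 := by
          rw [div_le_one hRpos]
          linarith
        refine le_trans ?_ (hGy _ k0 k1)
        rw [le_div_iff₀ hRpos]
        linarith)
    linarith
  have hinj := hINJ T _ _ u v hS 0 K R le_rfl hK.le (by linarith) hRpos hR8
    (fun _ _ _ _ _ => rfl)
  have hu0' : ∫ x in Q4, u 0 x * Gp (x 0 / R) = 0 := by
    have : ∀ x, u 0 x * Gp (x 0 / R) = 0 := fun x => by rw [hu0 0 le_rfl x, zero_mul]
    simp only [this]
    exact integral_zero _ _
  rw [hu0', zero_add] at hinj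
  have hexp : (1 / 2 : ℝ) ≤ Real.exp (-(12 * (K - 0) / R ^ 2)) := by
    have h1 : 12 * (K - 0) / R ^ 2 ≤ 1 / 2 := by
      rw [div_le_iff₀ (by positivity)]
      have : (16 * r) ^ 2 ≤ R ^ 2 := pow_le_pow_left₀ (by positivity) hR16 2
      nlinarith
    have h2 := Real.add_one_le_exp (-(12 * (K - 0) / R ^ 2))
    linarith
  have hKr0 : 0 ≤ K * (r / 20) := by positivity
  have low2 : K * r / 40 ≤ ∫ x in Q4, u K x * Gp (x 0 / R) := by
    refine le_trans ?_ hinj
    calc K * r / 40 = 1 / 2 * (K * (r / 20)) := by ring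
      _ ≤ _ := mul_le_mul hexp low1 hKr0 (Real.exp_pos _).le
  have hre2 := hRE2 T _ _ u v hS K L hK.le hKL hLT' hR8 (by
    intro s x h1 h2
    exact ⟨hfout s h1.le x, fun _ => rfl⟩)
  have hfar : K * r / 400 ≤ far n0 N M k (u L) := by
    have e : far n0 N M k (u L)
        = ∫ x in Q4, (if 15 / 100 * RR (L - K) ≤ x 0 then u L x else 0) := rfl
    rw [e]
    linarith
  have hKrp : 0 < K * r := mul_pos hK hr
  refine ⟨by linarith [hfar], by linarith [hfar], ?_⟩
  intro q hq t ht0 htL
  have htT : t ≤ T := by linarith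
  have hq0 : 0 < q := by linarith
  -- mass
  have hum : Measurable (u t) := hBu.meas.comp (measurable_const.prodMk measurable_id :
    Measurable fun x : V => ((t, x) : ℝ × V))
  have finq := finQ4
  have hsupq : ∀ x, |u t x| ≤ K := fun x => hsup' t x htT
  have hmass1 : ∫ x in Q4, u t x * Gp (x 0 / r) ≤ 3 * K * r := by
    have h1 := super hSUB hGP hS (fun _ _ _ => rfl) ht0 htT hr (by linarith : r ≤ 1 / 8)
    have h2 : ∫ x in Q4, u 0 x * Gp (x 0 / r) = 0 := by
      have : ∀ x, u 0 x * Gp (x 0 / r) = 0 := fun x => by rw [hu0 0 le_rfl x, zero_mul]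
      simp only [this]
      exact integral_zero _ _
    rw [h2, zero_add] at h1
    refine h1.trans ?_
    have hfinI : IsFiniteMeasure ((volume : Measure ℝ).restrict (Ioc 0 t)) := ⟨by
      rw [Measure.restrict_apply_univ]; simp⟩
    calc ∫ s in Ioc 0 t, ∫ x in Q4, ft n0 N M 0 k s x * Gp (x 0 / r)
        ≤ ∫ s in Ioc 0 t, (Ioo 0 K).indicator (fun _ => 3 * r) s := by
          refine setIntegral_mono_on (hint r hr t).2 ?_ measurableSet_Ioc ?_
          · exact (integrable_const (3 * r)).indicator measurableSet_Ioo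
          · intro s hs
            by_cases h : s < K
            · rw [Set.indicator_of_mem (show s ∈ Ioo 0 K from ⟨hs.1, h⟩)]
              exact inner_up (F := ft n0 N M 0 k s) (G := fun x => Gp (x 0 / r)) hr
                ((hint r hr t).1 s hs.1 hs.2) (hfin s hs.1 h) (fun x hx => (hGQ r hr x hx).2)
            · have : ∀ x, ft n0 N M 0 k s x * Gp (x 0 / r) = 0 := fun x => by
                rw [hfout s (not_lt.1 h) x, zero_mul]
              simp only [this]
              rw [integral_zero]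
              exact Set.indicator_nonneg (fun _ _ => by positivity) _
      _ = ((volume : Measure ℝ).restrict (Ioc 0 t)).real (Ioo 0 K) * (3 * r) := by
          rw [integral_indicator_const (3 * r) measurableSet_Ioo]
          simp
      _ ≤ K * (3 * r) := by
          refine mul_le_mul_of_nonneg_right ?_ (by positivity)
          have h3 : (volume : Measure ℝ).real (Ioo 0 K) = K := by simp [hK.le]
          calc ((volume : Measure ℝ).restrict (Ioc 0 t)).real (Ioo 0 K)
              ≤ (volume : Measure ℝ).real (Ioo 0 K) :=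
                ENNReal.toReal_mono (by simp) (Measure.restrict_apply_le _ _)
            _ = K := h3
      _ = 3 * K * r := by ring
  have hup : ∀ x ∈ Q4, 0 ≤ u t x := fun x hx => hS.up t x htT (Q4_pos hx).1 (Q4_pos hx).2
  have iu : IntegrableOn (u t) Q4 := Integrable.of_bound hum.aestronglyMeasurable K
    (Eventually.of_forall fun x => by rw [Real.norm_eq_abs]; exact hsupq x)
  have iug : IntegrableOn (fun x => u t x * Gp (x 0 / r)) Q4 := by
    refine Integrable.of_bound (C := K * 1) ?_ ?_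
    · exact (hum.mul (hG2.continuous.measurable.comp (by fun_prop))).aestronglyMeasurable
    · rw [ae_restrict_iff' meas_Q4]
      refine Eventually.of_forall fun x hx => ?_
      obtain ⟨h3, h4⟩ := hGQ r hr x hx
      rw [Real.norm_eq_abs, abs_mul, abs_of_nonneg h3]
      exact mul_le_mul (hsupq x) h4 h3 hK.le
  have hmass : ∫ x in Q4, u t x ≤ 4 * K * r := by
    calc ∫ x in Q4, u t x
        ≤ ∫ x in Q4, (u t x * Gp (x 0 / r) + (St 0 r).indicator (fun _ => K) x) := by
          refine setIntegral_mono_on iu (iug.add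
            ((integrable_const K).indicator (meas_St _ _))) meas_Q4 ?_
          intro x hx
          by_cases h : x 0 < r
          · rw [Set.indicator_of_mem (show x ∈ St 0 r from ⟨⟨hx.1, h⟩, hx.2.2.1, hx.2.2.2⟩)]
            have k1 := mul_nonneg (hup x hx) (hGQ r hr x hx).1
            have k2 := (abs_le.1 (hsupq x)).2
            linarith
          · have k1 : Gp (x 0 / r) = 1 := hG1 _ (by rw [le_div_iff₀ hr]; linarith)
            have k2 : 0 ≤ (St 0 r).indicator (fun _ => K) x :=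
              Set.indicator_nonneg (fun _ _ => hK.le) _
            rw [k1]
            linarith
      _ = (∫ x in Q4, u t x * Gp (x 0 / r))
            + ∫ x in Q4, (St 0 r).indicator (fun _ => K) x :=
          integral_add iug ((integrable_const K).indicator (meas_St _ _))
      _ ≤ 3 * K * r + K * r := by
          refine add_le_add hmass1 ?_
          rw [integral_indicator_const K (meas_St _ _)]
          rw [smul_eq_mul, mul_comm K r]
          refine mul_le_mul_of_nonneg_right ?_ hK.le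
          calc ((volume : Measure V).restrict Q4).real (St 0 r)
              ≤ (volume : Measure V).real (St 0 r) :=
                ENNReal.toReal_mono (by rw [vol_St hr.le]; exact ENNReal.ofReal_ne_top)
                  (Measure.restrict_apply_le _ _)
            _ = r := by rw [volr_St hr.le]; ring
      _ = 4 * K * r := by ring
  -- the q-th power
  have hI : IntegrableOn (fun x => |u t x| ^ q) (Q 2) := by
    have : IsFiniteMeasure ((volume : Measure V).restrict (Q 2)) :=
      ⟨by rw [Measure.restrict_apply_univ]; exact vol_Q⟩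
    refine Integrable.of_bound (C := K ^ q) ?_ ?_
    · exact ((measurable_norm.comp hum).pow_const q).aestronglyMeasurable
    · refine Eventually.of_forall fun x => ?_
      rw [Real.norm_eq_abs, abs_of_nonneg (by positivity)]
      exact Real.rpow_le_rpow (abs_nonneg _) (hsupq x) hq0.le
  have hper := hBu.per t
  have hsu := hS.su t
  have hR12 : ∀ x, u t (Rf (1 / 2) x) = u t x := fun x => hsu.2 x
  have hR1 : ∀ x, u t (Rf 1 x) = - u t x := by
    intro x
    have h1 : Rf 1 x = fun i => (![-x 0, x 1] : V) i + (((![1, 0] : Fin 2 → ℤ) i : ℤ) : ℝ) := by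
      funext i
      fin_cases i
      · show 1 - x 0 = -x 0 + ((1 : ℤ) : ℝ)
        push_cast; ring
      · show x 1 = x 1 + ((0 : ℤ) : ℝ)
        push_cast; ring
    rw [h1, hper, hsu.1]
  rw [quad hI (fun x => by rw [hR1, abs_neg]) (fun x => by rw [hR12])]
  have hq4 : ∫ x in Q4, |u t x| ^ q ≤ K ^ (q - 1) * (4 * K * r) := by
    calc ∫ x in Q4, |u t x| ^ q ≤ ∫ x in Q4, K ^ (q - 1) * u t x := by
          refine setIntegral_mono_on (hI.mono_set ?_) (iu.const_mul _) meas_Q4 ?_
          · intro x hx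
            rw [mem_Q]
            exact ⟨⟨hx.1, by linarith [hx.2.1]⟩, hx.2.2.1, hx.2.2.2⟩
          · intro x hx
            have k0 := hup x hx
            rw [abs_of_nonneg k0]
            rcases k0.eq_or_lt with h | h
            · rw [← h, Real.zero_rpow hq0.ne', mul_zero]
            · have k1 : u t x ^ q = u t x ^ (q - 1) * u t x := by
                rw [← Real.rpow_add_one h.ne']
                congr 1
                ring
              rw [k1]
              refine mul_le_mul_of_nonneg_right ?_ k0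
              exact Real.rpow_le_rpow k0 ((abs_le.1 (hsupq x)).2) (by linarith)
      _ = K ^ (q - 1) * ∫ x in Q4, u t x := integral_const_mul _ _
      _ ≤ K ^ (q - 1) * (4 * K * r) := mul_le_mul_of_nonneg_left hmass (by positivity)
  have e1 : K ^ (q - 1) * (4 * K * r) = 4 * (K ^ q * r) := by
    have : K ^ q = K ^ (q - 1) * K := by
      rw [← Real.rpow_add_one hK.ne']
      congr 1
      ring
    rw [this]; ring
  rw [e1] at hq4
  have hfin2 : 16 * (K * r) ≤ 6400 * far n0 N M k (u L) := by linarith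
  have e2 : (16 * (K * r)) ^ q * r ^ (-(q - 1)) ≤
      (6400 * far n0 N M k (u L)) ^ q * r ^ (-(q - 1)) :=
    mul_le_mul_of_nonneg_right (Real.rpow_le_rpow (by positivity) hfin2 hq0.le) (by positivity)
  refine le_trans ?_ e2
  have e3 : (16 * (K * r)) ^ q * r ^ (-(q - 1)) = 16 ^ q * (K ^ q * r) := by
    rw [Real.mul_rpow (by norm_num) (by positivity), Real.mul_rpow hK.le hr.le]
    have : r ^ q * r ^ (-(q - 1)) = r := by
      rw [← Real.rpow_add hr]
      have : q + -(q - 1) = 1 := by ring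
      rw [this, Real.rpow_one]
    calc 16 ^ q * (K ^ q * r ^ q) * r ^ (-(q - 1)) = 16 ^ q * (K ^ q * (r ^ q * r ^ (-(q - 1)))) := by
          ring
      _ = _ := by rw [this]
  rw [e3]
  have e4 : (16 : ℝ) ≤ 16 ^ q := by
    calc (16 : ℝ) = 16 ^ (1 : ℝ) := (Real.rpow_one _).symm
      _ ≤ 16 ^ q := Real.rpow_le_rpow_of_exponent_le (by norm_num) (by linarith)
  have e5 : 0 ≤ K ^ q * r := by positivity
  nlinarith [mul_le_mul_of_nonneg_right e4 e5]

theorem BASE.main (hINJ : S_INJ) (hRE2 : S_RE2) (hFSUP : S_FSUP) (hSUB : S_SUB) (hNUM : S_NUM)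
    (hPERX : S_PERX) (hBLK : S_BLK) (hFREG : S_FREG) (hGP : S_GP) : S_BASE :=
  BASE hINJ hRE2 hFSUP hSUB hNUM hPERX hBLK hFREG hGP

end Pool.Agent.Helper8.ND
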