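import Pool.Agent.Helper46.ND.INJ

/-!
# ND2, part BASE: folding of the torus onto the quarter cell, bands
-/

set_option autoImplicit false

namespace Pool.Agent.Helper8.ND

open MeasureTheory Set Filter Topology
open Pool.Agent.Helper28.ND Pool.Agent.Helper46.ND

abbrev V := Fin 2 → ℝ

/-- reflection at `x 0 = c / 2` -/
def Rf (c : ℝ) (x : V) : V := ![c - x 0, x 1]

lemma Rf_zero (c : ℝ) (x : V) : Rf c x 0 = c - x 0 := rfl
lemma Rf_one (c : ℝ) (x : V) : Rf c x 1 = x 1 := rfl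

lemma Rf_Rf (c : ℝ) (x : V) : Rf c (Rf c x) = x := by
  funext i
  fin_cases i
  · show c - (c - x 0) = x 0
    ring
  · rfl

lemma Rf_cont (c : ℝ) : Continuous (Rf c) := by
  rw [continuous_pi_iff]
  intro i
  fin_cases i
  · show Continuous fun x : V => c - x 0
    exact continuous_const.sub (continuous_apply (0 : Fin 2))
  · show Continuous fun x : V => x 1
    exact continuous_apply (1 : Fin 2)

lemma Rf_inj (c : ℝ) : Function.Injective (Rf c) := fun x y h => by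
  rw [← Rf_Rf c x, ← Rf_Rf c y, h]

lemma Rf_mp (c : ℝ) : MeasurePreserving (Rf c) (volume : Measure V) volume := by
  have h := MeasureTheory.volume_preserving_pi (α' := fun _ : Fin 2 => ℝ)
    (β' := fun _ : Fin 2 => ℝ) (f := fun i y => if i = 0 then c - y else y) (by
      intro i
      by_cases hi : i = 0
      · subst hi
        simp only [if_pos]
        exact Measure.measurePreserving_sub_left volume c
      · simp only [if_neg hi]
        exact MeasurePreserving.id volume)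
  have e : Rf c = fun (a : V) (i : Fin 2) => if i = 0 then c - a i else a i := by
    funext a i
    fin_cases i <;> simp [Rf]
  rw [e]
  exact h

lemma ae_ne (c : ℝ) : ∀ᵐ x : V, x 0 ≠ c := by
  rw [ae_iff, volume_pi]
  have := Measure.pi_hyperplane (fun _ : Fin 2 => (volume : Measure ℝ)) 0 c
  simpa using this

lemma dbl {A B : Set V} {c : ℝ} {I : V → ℝ} (hA : MeasurableSet A) (hB : MeasurableSet B)
    (h1 : A ⊆ B) (h2 : Rf c ⁻¹' A ⊆ B) (hdis : Disjoint A (Rf c ⁻¹' A))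
    (hcov : ∀ᵐ x : V, x ∈ B → x ∈ A ∪ Rf c ⁻¹' A) (hI : IntegrableOn I B)
    (hR : ∀ x, I (Rf c x) = I x) :
    ∫ x in B, I x = 2 * ∫ x in A, I x := by
  have hA2 : MeasurableSet (Rf c ⁻¹' A) := (Rf_cont c).measurable hA
  have e1 : ∫ x in B, I x = ∫ x in A ∪ Rf c ⁻¹' A, I x := by
    apply setIntegral_congr_set
    filter_upwards [hcov] with x hx
    apply propext
    exact ⟨fun h => hx h, fun h => h.elim (fun h => h1 h) (fun h => h2 h)⟩
  have e2 : ∫ x in Rf c ⁻¹' A, I x = ∫ x in A, I x := by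
    rw [← (Rf_mp c).setIntegral_preimage_emb ((Rf_cont c).measurableEmbedding (Rf_inj c)) I A]
    exact setIntegral_congr_fun hA2 fun x _ => (hR x).symm
  rw [e1, setIntegral_union hdis hA2 (hI.mono_set h1) (hI.mono_set h2), e2]
  ring

lemma meas_Q : MeasurableSet (Q 2) := by
  unfold Q
  exact MeasurableSet.univ_pi fun _ => measurableSet_Ioc

lemma mem_Q {x : V} : x ∈ Q 2 ↔ (0 < x 0 ∧ x 0 ≤ 1) ∧ (0 < x 1 ∧ x 1 ≤ 1) := by
  unfold Q
  rw [Set.mem_univ_pi, Fin.forall_fin_two]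
  rfl

lemma vol_Q : volume (Q 2) < ⊤ := by
  unfold Q
  rw [volume_pi_pi]
  simp

/-- strips `a < x 0 < b`, `0 < x 1 ≤ 1` -/
def St (a b : ℝ) : Set V := {x | (a < x 0 ∧ x 0 < b) ∧ (0 < x 1 ∧ x 1 ≤ 1)}

lemma meas_St (a b : ℝ) : MeasurableSet (St a b) := by
  have h0 : Measurable fun x : V => x 0 := measurable_pi_apply 0
  have h1 : Measurable fun x : V => x 1 := measurable_pi_apply 1
  exact ((measurableSet_lt measurable_const h0).inter (measurableSet_lt h0 measurable_const)).inter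
    ((measurableSet_lt measurable_const h1).inter (measurableSet_le h1 measurable_const))

lemma Q4_St : Q4 = St 0 (1 / 4) := by
  ext x
  show (0 < x 0 ∧ x 0 < 1 / 4 ∧ 0 < x 1 ∧ x 1 ≤ 1) ↔ _
  constructor
  · rintro ⟨a, b, c, d⟩
    exact ⟨⟨a, b⟩, c, d⟩
  · rintro ⟨⟨a, b⟩, c, d⟩
    exact ⟨a, b, c, d⟩

lemma vol_St {a b : ℝ} (hab : a ≤ b) : volume (St a b) = ENNReal.ofReal (b - a) := by
  have : St a b = Set.pi Set.univ (fun i : Fin 2 => if i = 0 then Ioo a b else Ioc 0 1) := by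
    ext x
    rw [Set.mem_univ_pi, Fin.forall_fin_two]
    simp [St]
  rw [this, volume_pi_pi, Fin.prod_univ_two]
  simp

lemma volr_St {a b : ℝ} (hab : a ≤ b) : (volume : Measure V).real (St a b) = b - a := by
  rw [Measure.real, vol_St hab, ENNReal.toReal_ofReal (by linarith)]

/-- folding onto the quarter cell -/
lemma quad {I : V → ℝ} (hI : IntegrableOn I (Q 2)) (h1 : ∀ x, I (Rf 1 x) = I x)
    (h2 : ∀ x, I (Rf (1 / 2) x) = I x) : ∫ x in Q 2, I x = 4 * ∫ x in Q4, I x := by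
  have hsub : St 0 (1 / 2) ⊆ Q 2 := by
    intro x hx
    rw [mem_Q]
    obtain ⟨⟨a, b⟩, c, d⟩ := hx
    exact ⟨⟨a, by linarith⟩, c, d⟩
  have e1 : ∫ x in Q 2, I x = 2 * ∫ x in St 0 (1 / 2), I x := by
    refine dbl (c := 1) (meas_St _ _) meas_Q hsub ?_ ?_ ?_ hI h1
    · intro x hx
      rw [mem_Q]
      obtain ⟨⟨a, b⟩, c, d⟩ := hx
      rw [Rf_zero] at a b
      rw [Rf_one] at c d
      exact ⟨⟨by linarith, by linarith⟩, c, d⟩
    · rw [Set.disjoint_left]
      intro x hx hx2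
      obtain ⟨⟨a, b⟩, -⟩ := hx
      obtain ⟨⟨a', b'⟩, -⟩ := hx2
      rw [Rf_zero] at a' b'
      linarith
    · filter_upwards [ae_ne (1 / 2), ae_ne 1] with x k1 k2 hx
      rw [mem_Q] at hx
      obtain ⟨⟨a, b⟩, c, d⟩ := hx
      have b' : x 0 < 1 := lt_of_le_of_ne b k2
      rcases lt_or_gt_of_ne k1 with h | h
      · exact Or.inl ⟨⟨a, h⟩, c, d⟩
      · refine Or.inr ⟨⟨?_, ?_⟩, ?_, ?_⟩
        · rw [Rf_zero]; linarith
        · rw [Rf_zero]; linarith
        · rw [Rf_one]; exact c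
        · rw [Rf_one]; exact d
  have hsub2 : Q4 ⊆ St 0 (1 / 2) := by
    intro x hx
    rw [Q4_St] at hx
    obtain ⟨⟨a, b⟩, c, d⟩ := hx
    exact ⟨⟨a, by linarith⟩, c, d⟩
  have e2 : ∫ x in St 0 (1 / 2), I x = 2 * ∫ x in Q4, I x := by
    rw [Q4_St] at hsub2 ⊢
    refine dbl (c := 1 / 2) (meas_St _ _) (meas_St _ _) hsub2 ?_ ?_ ?_ (hI.mono_set hsub) h2
    · intro x hx
      obtain ⟨⟨a, b⟩, c, d⟩ := hx
      rw [Rf_zero] at a b
      rw [Rf_one] at c d
      exact ⟨⟨by linarith, by linarith⟩, c, d⟩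
    · rw [Set.disjoint_left]
      intro x hx hx2
      obtain ⟨⟨a, b⟩, -⟩ := hx
      obtain ⟨⟨a', b'⟩, -⟩ := hx2
      rw [Rf_zero] at a' b'
      linarith
    · filter_upwards [ae_ne (1 / 4)] with x k1 hx
      obtain ⟨⟨a, b⟩, c, d⟩ := hx
      rcases lt_or_gt_of_ne k1 with h | h
      · exact Or.inl ⟨⟨a, h⟩, c, d⟩
      · refine Or.inr ⟨⟨?_, ?_⟩, ?_, ?_⟩
        · rw [Rf_zero]; linarith
        · rw [Rf_zero]; linarith
        · rw [Rf_one]; exact c
        · rw [Rf_one]; exact d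
  rw [e1, e2]
  ring

end Pool.Agent.Helper8.ND
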